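import Pool.Agent.W381.QG.Haar

/-!
# A non-coamenable closed subgroup `G ⊂ U_N⁺` with trivial diagonal tori

`C(G) = C_max(G)` is the full group C*-algebra of a non-amenable subgroup `Λ ⊂ GL₅(ℤ)` generated by
`A₅` and elementary matrices, with the comultiplication twisted by a 2-cocycle on a Klein four-group
`V ⊂ A₅`; `C_min(G)` is the reduced group C*-algebra of `Λ`.
-/

namespace Pool.Agent.Results.MP_d87fde_al.TrivialToriAmenable

open Pool.Agent.W381.QG

/-- There are `N` and a closed subgroup `G ⊂ U_N⁺`, with `C(G) = C_max(G)` and with a Haar state,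
that is not coamenable, while for every `Q ∈ U_N` the group `Γ_Q` is trivial, so that it is
amenable. -/
theorem result : ∃ (N : ℕ) (G : ClosedSubgroup N), G.IsFull ∧
    (∃ h : G.C →ₗ[ℂ] ℂ, G.IsHaarState h) ∧ ¬ G.Coamenable ∧
    ∀ Q ∈ Matrix.unitaryGroup (Fin N) ℂ, G.TorusTrivial Q ∧ IsAmenableGroup (G.torus Q) :=
  ⟨NN, GG, isFull, ⟨haar, haar_isHaarState⟩, not_coamenable,
    fun _ hQ => ⟨torus_eq_bot hQ, torus_amenable hQ⟩⟩

end Pool.Agent.Results.MP_d87fde_al.TrivialToriAmenable
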